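import Pool.Agent.Helper5.EXC.SH

/-!
# Packet SF: far estimate for the differences of the potential kernel
-/

open Finset

namespace Pool.Agent.Helper5.EXC

open Pool.Agent.Helper99.ERW Pool.Agent.Helper99.EXC

theorem nm_le_of_close {u y : Site 2} {r : ℝ} (h : ∀ i, |((u i - y i : ℤ) : ℝ)| ≤ r) :
    nm y ≤ nm u + r := by
  unfold nm
  refine max_le ?_ ?_
  · have h1 := h 0
    have h2 : ((y 0 : ℤ) : ℝ) = (u 0 : ℝ) - ((u 0 - y 0 : ℤ) : ℝ) := by push_cast; ring
    rw [h2]
    refine (abs_sub _ _).trans (add_le_add (le_max_left _ _) h1)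
  · have h1 := h 1
    have h2 : ((y 1 : ℤ) : ℝ) = (u 1 : ℝ) - ((u 1 - y 1 : ℤ) : ℝ) := by push_cast; ring
    rw [h2]
    refine (abs_sub _ _).trans (add_le_add (le_max_right _ _) h1)

theorem chain_line' {H : Site 2 → ℝ} {B : ℝ} (y : Site 2) (e : Dir 2) (n : ℕ)
    (h : ∀ m < n, |H (y + m • vec e + vec e) - H (y + m • vec e)| ≤ B) :
    |H (y + n • vec e) - H y| ≤ B * n := by
  induction n with
  | zero => simp
  | succ n ih =>
    have h1 : y + (n + 1) • vec e = (y + n • vec e) + vec e := by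
      rw [succ_nsmul, add_assoc]
    rw [h1]
    have h2 := h n (Nat.lt_succ_self n)
    have h3 : H (y + n • vec e + vec e) - H y =
      (H (y + n • vec e + vec e) - H (y + n • vec e)) + (H (y + n • vec e) - H y) := by ring
    rw [h3]
    refine (abs_add_le _ _).trans ?_
    have h4 := ih fun m hm => h m (hm.trans (Nat.lt_succ_self n))
    push_cast
    linarith

/-- the unit step bound for second differences of the kernel -/
theorem sd_step {a : ℝ} {φ : Site 2 → ℝ} {κ C0 : ℝ} (hK : Ker a φ κ C0) (x : Site 2) (g : Dir 2)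
    (l : Fin 2) : |secondDiff φ l (x + vec g) - secondDiff φ l x| ≤ C0 / (1 + nm x) ^ 3 := by
  have hz : ∀ y : Site 2, y + vec (l, true) + vec (l, false) = y := fun y => by
    rw [vec_neg, add_neg_cancel_right]
  have := hK.d3 x (l, true) (l, false) g
  rw [hz, add_right_comm x (vec (l, true)) (vec g), add_right_comm x (vec (l, false)) (vec g),
    ← abs_neg] at this
  rw [sd_eq, sd_eq, show φ (x + vec g + vec (l, true)) - φ (x + vec g) +
    (φ (x + vec g + vec (l, false)) - φ (x + vec g)) -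
    (φ (x + vec (l, true)) - φ x + (φ (x + vec (l, false)) - φ x)) =
    -(φ (x + vec g) - φ x - φ (x + vec g + vec (l, true)) - φ (x + vec g + vec (l, false)) +
      φ (x + vec (l, true)) + φ (x + vec (l, false)) + φ (x + vec g) - φ x) by ring]
  exact this

theorem Df_step {a : ℝ} {φ : Site 2 → ℝ} {κ C0 : ℝ} (hK : Ker a φ κ C0) (x : Site 2)
    (g : Dir 2) : |Df φ (x + vec g) - Df φ x| ≤ C0 / (1 + nm x) ^ 3 := by
  have h0 := abs_le.1 (sd_step hK x g 0)
  have h1 := abs_le.1 (sd_step hK x g 1)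
  unfold Df
  rw [abs_le]
  constructor <;> linarith [h0.1, h0.2, h1.1, h1.2]

/-- **SF.** -/
theorem SF (hSA : SA_stmt) : SF_stmt := by
  intro a φ κ C0 hK
  obtain ⟨b0, hb0⟩ := hSA a φ κ C0 hK
  refine ⟨b0, fun b hb => ?_⟩
  obtain ⟨-, k1, -, -, -, -, -, hdout, -, -⟩ := hb0 b hb
  have hC0 : 0 ≤ C0 := zero_le_one.trans hK.cone
  refine ⟨16 * b * C0, k1, fun k hk z hz y hy => ?_⟩
  have hyk : y ∉ Bx b k := by
    intro h
    apply hy
    unfold Bx at *
    rw [mem_box] at *
    intro l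
    refine (h l).trans ?_
    have h1 : b * 2 ^ k ≤ b * 2 ^ (k + 1) :=
      Nat.mul_le_mul_left b (Nat.pow_le_pow_right (by norm_num) (by omega))
    exact_mod_cast h1
  rw [hdout k hk y hyk]
  -- the size of `y`
  have hR : (b : ℝ) * 2 ^ k ≤ nm y / 2 := by
    unfold Bx at hy
    rw [mem_box] at hy
    push Not at hy
    obtain ⟨l, hl⟩ := hy
    have h1 : ((b * 2 ^ (k + 1) : ℕ) : ℝ) < |(y l : ℝ)| := by
      rw [← Int.cast_abs]
      exact_mod_cast hl
    have h2 : |(y l : ℝ)| ≤ nm y := by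
      unfold nm
      fin_cases l
      · exact le_max_left _ _
      · exact le_max_right _ _
    push_cast at h1
    rw [pow_succ] at h1
    linarith
  have hzl : ∀ l, ((z l).natAbs : ℝ) ≤ b * 2 ^ k := by
    intro l
    unfold Bx at hz
    rw [mem_box] at hz
    have := hz l
    rw [Nat.cast_natAbs]
    exact_mod_cast this
  have hny := nm_nonneg y
  -- the unit steps
  have hstep : ∀ (u : Site 2) (g : Dir 2), (∀ i, |((u i - y i : ℤ) : ℝ)| ≤ b * 2 ^ k) →
      |Df φ (u + vec g) - Df φ u| ≤ 8 * C0 / (1 + nm y) ^ 3 := by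
    intro u g hu
    have h1 := nm_le_of_close hu
    have hnu := nm_nonneg u
    have h2 : (1 + nm y) / 2 ≤ 1 + nm u := by linarith
    refine (Df_step hK u g).trans ?_
    have h3 : ((1 + nm y) / 2) ^ 3 ≤ (1 + nm u) ^ 3 := pow_le_pow_left₀ (by linarith) h2 3
    rw [div_pow] at h3
    rw [div_le_div_iff₀ (by positivity) (by positivity)]
    nlinarith
  obtain ⟨c0, e0⟩ := exists_steps (-z 0) 0
  obtain ⟨c1, e1⟩ := exists_steps (-z 1) 1
  have hx : y - z = (y + (-z 0).natAbs • vec (0, c0)) + (-z 1).natAbs • vec (1, c1) := by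
    rw [e0, e1]
    funext i
    fin_cases i <;> simp <;> ring
  have v0 : ∀ (c : Bool) (m : ℕ) (l i : Fin 2),
      |((m • (vec (l, c) : Site 2)) i : ℝ)| ≤ if i = l then (m : ℝ) else 0 := by
    intro c m l i
    by_cases h : i = l
    · subst h
      cases c <;> simp [vec]
    · simp [vec, h]
  have g0 := chain_line' (H := Df φ) (B := 8 * C0 / (1 + nm y) ^ 3) y (0, c0) (-z 0).natAbs
    (fun m hm => by
      refine hstep _ _ fun i => ?_
      have hmR : (m : ℝ) ≤ b * 2 ^ k := by
        refine le_trans ?_ (hzl 0)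
        rw [Int.natAbs_neg] at hm
        exact_mod_cast hm.le
      have h1 := v0 c0 m 0 i
      rw [Pi.add_apply, add_sub_cancel_left]
      refine h1.trans ?_
      split_ifs
      · exact hmR
      · positivity)
  have g1 := chain_line' (H := Df φ) (B := 8 * C0 / (1 + nm y) ^ 3)
    (y + (-z 0).natAbs • vec (0, c0)) (1, c1) (-z 1).natAbs
    (fun m hm => by
      refine hstep _ _ fun i => ?_
      have hmR : (m : ℝ) ≤ b * 2 ^ k := by
        refine le_trans ?_ (hzl 1)
        rw [Int.natAbs_neg] at hm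
        exact_mod_cast hm.le
      have hnR : (((-z 0).natAbs : ℕ) : ℝ) ≤ b * 2 ^ k := by
        rw [Int.natAbs_neg]
        exact hzl 0
      have h0 := v0 c0 (-z 0).natAbs 0 i
      have h1 := v0 c1 m 1 i
      rw [Pi.add_apply, Pi.add_apply, add_assoc, add_sub_cancel_left, Int.cast_add]
      refine (abs_add_le _ _).trans ((add_le_add h0 h1).trans ?_)
      fin_cases i
      · simpa using hnR
      · simpa using hmR)
  rw [← hx] at g1
  have n0 : (((-z 0).natAbs : ℕ) : ℝ) ≤ b * 2 ^ k := by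
    rw [Int.natAbs_neg]
    exact hzl 0
  have n1 : (((-z 1).natAbs : ℕ) : ℝ) ≤ b * 2 ^ k := by
    rw [Int.natAbs_neg]
    exact hzl 1
  have hB : 0 ≤ 8 * C0 / (1 + nm y) ^ 3 := by positivity
  have m0 := mul_le_mul_of_nonneg_left n0 hB
  have m1 := mul_le_mul_of_nonneg_left n1 hB
  have e : Df φ (y - z) - Df φ y = (Df φ (y - z) - Df φ (y + (-z 0).natAbs • vec (0, c0))) +
      (Df φ (y + (-z 0).natAbs • vec (0, c0)) - Df φ y) := by ring
  rw [e]
  refine (abs_add_le _ _).trans ?_
  have e2 : 16 * (b : ℝ) * C0 * 2 ^ k / (1 + nm y) ^ 3 =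
      2 * (8 * C0 / (1 + nm y) ^ 3 * (b * 2 ^ k)) := by ring
  rw [e2]
  linarith

end Pool.Agent.Helper5.EXC
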