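import Pool.Agent.Helper99.EXC.GoalsS

/-!
# Packet SH: Lipschitz bound for the pieces of the truncated potential kernel
-/

open Finset

namespace Pool.Agent.Helper5.EXC

open Pool.Agent.Helper99.ERW Pool.Agent.Helper99.EXC

theorem abs_mul_le' {x y a b : ℝ} (hx : |x| ≤ a) (hy : |y| ≤ b) : |x * y| ≤ a * b := by
  rw [abs_mul]
  exact mul_le_mul hx hy (abs_nonneg _) ((abs_nonneg _).trans hx)

/-- comparison of two Taylor expansions -/
theorem taylor_cmp (hF : FFP_stmt) {A A' p q p' q' δ c : ℝ} (hc : 1 ≤ c) (hδ : 0 ≤ δ)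
    (hp : |p| ≤ c * δ) (hq : |q| ≤ c * δ) (hp' : |p'| ≤ c * δ) (hq' : |q'| ≤ c * δ)
    (hA : |A' - A| ≤ c * δ) (hpq : |p + q| ≤ c * δ ^ 2)
    (hd : |(p' + q') - (p + q)| ≤ c * δ ^ 3) (hpp : |p' - p| ≤ c * δ ^ 2)
    (hqq : |q' - q| ≤ c * δ ^ 2) :
    |(FF (A' + p') + FF (A' + q') - 2 * FF A') - (FF (A + p) + FF (A + q) - 2 * FF A)| ≤
      17 * c ^ 3 * δ ^ 3 := by
  obtain ⟨-, -, -, -, -, F1, F2, -, -, F3, F4, F5⟩ := hF
  have hcd : 0 ≤ c * δ := by positivity
  have r : ∀ B h, |h| ≤ c * δ → |FF (B + h) - FF B - sg B * h - ss B * h ^ 2 / 2| ≤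
      c ^ 3 * δ ^ 3 := by
    intro B h hh
    refine (F5 B h).trans ?_
    have := pow_le_pow_left₀ (abs_nonneg h) hh 3
    rwa [mul_pow] at this
  have r1 := abs_le.1 (r A p hp)
  have r2 := abs_le.1 (r A q hq)
  have r3 := abs_le.1 (r A' p' hp')
  have r4 := abs_le.1 (r A' q' hq')
  have s1 : |sg A' * ((p' + q') - (p + q))| ≤ 1 * (c * δ ^ 3) :=
    abs_mul_le' (by rw [abs_of_nonneg (F1 A').1]; exact (F1 A').2) hd
  have s2 : |(sg A' - sg A) * (p + q)| ≤ 2 * (c ^ 2 * δ ^ 3) :=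
    (abs_mul_le' (a := 2 * (c * δ)) ((F3 A' A).trans (by linarith)) hpq).trans (le_of_eq (by ring))
  have pp : |p' + p| ≤ 2 * (c * δ) := (abs_add_le _ _).trans (by linarith)
  have qq : |q' + q| ≤ 2 * (c * δ) := (abs_add_le _ _).trans (by linarith)
  have s3 : |ss A' * ((p' - p) * (p' + p))| ≤ 4 * (c ^ 2 * δ ^ 3) :=
    (abs_mul_le' (a := 2) (by rw [abs_of_nonneg (F2 A').1]; exact (F2 A').2)
      (abs_mul_le' hpp pp)).trans (le_of_eq (by ring))
  have s4 : |ss A' * ((q' - q) * (q' + q))| ≤ 4 * (c ^ 2 * δ ^ 3) :=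
    (abs_mul_le' (a := 2) (by rw [abs_of_nonneg (F2 A').1]; exact (F2 A').2)
      (abs_mul_le' hqq qq)).trans (le_of_eq (by ring))
  have sp : |p ^ 2 + q ^ 2| ≤ 2 * (c * δ) ^ 2 := by
    rw [abs_of_nonneg (by positivity)]
    have h1 := pow_le_pow_left₀ (abs_nonneg p) hp 2
    have h2 := pow_le_pow_left₀ (abs_nonneg q) hq 2
    rw [sq_abs] at h1 h2
    linarith
  have s5 : |(ss A' - ss A) * (p ^ 2 + q ^ 2)| ≤ 12 * (c ^ 3 * δ ^ 3) :=
    (abs_mul_le' (a := 6 * (c * δ)) ((F4 A' A).trans (by linarith)) sp).trans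
      (le_of_eq (by ring))
  have s1' := abs_le.1 s1
  have s2' := abs_le.1 s2
  have s3' := abs_le.1 s3
  have s4' := abs_le.1 s4
  have s5' := abs_le.1 s5
  have hδ3 : 0 ≤ δ ^ 3 := by positivity
  have e1 : c * δ ^ 3 ≤ c ^ 3 * δ ^ 3 := by
    exact mul_le_mul_of_nonneg_right (le_self_pow₀ hc (by norm_num)) hδ3
  have e2 : c ^ 2 * δ ^ 3 ≤ c ^ 3 * δ ^ 3 := by
    exact mul_le_mul_of_nonneg_right (pow_le_pow_right₀ hc (by norm_num)) hδ3
  have id : (FF (A' + p') + FF (A' + q') - 2 * FF A') - (FF (A + p) + FF (A + q) - 2 * FF A) =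
      sg A' * ((p' + q') - (p + q)) + (sg A' - sg A) * (p + q) +
      ss A' * ((p' - p) * (p' + p)) / 2 + ss A' * ((q' - q) * (q' + q)) / 2 +
      (ss A' - ss A) * (p ^ 2 + q ^ 2) / 2 +
      (FF (A' + p') - FF A' - sg A' * p' - ss A' * p' ^ 2 / 2) +
      (FF (A' + q') - FF A' - sg A' * q' - ss A' * q' ^ 2 / 2) -
      (FF (A + p) - FF A - sg A * p - ss A * p ^ 2 / 2) -
      (FF (A + q) - FF A - sg A * q - ss A * q ^ 2 / 2) := by ring
  rw [id, abs_le]
  constructor
  · linarith [s1'.1, s2'.1, s3'.1, s4'.1, s5'.1, r1.2, r2.2, r3.1, r4.1, e1, e2]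
  · linarith [s1'.2, s2'.2, s3'.2, s4'.2, s5'.2, r1.1, r2.1, r3.2, r4.2, e1, e2]

theorem nm_nonneg (x : Site 2) : 0 ≤ nm x := (abs_nonneg _).trans (le_max_left _ _)

theorem nm_add_vec_le (x : Site 2) (e : Dir 2) : nm (x + vec e) ≤ nm x + 1 := by
  unfold nm
  have h0 := abs_vec_le e 0
  have h1 := abs_vec_le e 1
  have g0 : |((vec e 0 : ℤ) : ℝ)| ≤ 1 := by exact_mod_cast h0
  have g1 : |((vec e 1 : ℤ) : ℝ)| ≤ 1 := by exact_mod_cast h1
  refine max_le ?_ ?_
  · rw [Pi.add_apply, Int.cast_add]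
    exact (abs_add_le _ _).trans (add_le_add (le_max_left _ _) g0)
  · rw [Pi.add_apply, Int.cast_add]
    exact (abs_add_le _ _).trans (add_le_add (le_max_right _ _) g1)

theorem vec_neg (l : Fin 2) : (vec (l, false) : Site 2) = -vec (l, true) := by
  unfold vec
  simp [← Pi.single_neg]

theorem vec_neg' (l : Fin 2) : (vec (l, true) : Site 2) = -vec (l, false) := by
  rw [vec_neg, neg_neg]

/-- the opposite direction -/
def opp (e : Dir 2) : Dir 2 := (e.1, !e.2)

theorem vec_opp (e : Dir 2) : vec (opp e) = -vec e := by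
  obtain ⟨l, b⟩ := e
  cases b
  · exact vec_neg' l
  · exact vec_neg l

theorem nm_le_add_vec (x : Site 2) (e : Dir 2) : nm x ≤ nm (x + vec e) + 1 := by
  have h := nm_add_vec_le (x + vec e) (opp e)
  rwa [vec_opp, add_neg_cancel_right] at h

/-- from unit steps to arbitrary differences -/
theorem chain_line {H : Site 2 → ℝ} {B : ℝ} (h : ∀ x e, |H (x + vec e) - H x| ≤ B)
    (n : ℕ) (y : Site 2) (e : Dir 2) : |H (y + n • vec e) - H y| ≤ B * n := by
  induction n with
  | zero => simp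
  | succ n ih =>
    have h1 : y + (n + 1) • vec e = (y + n • vec e) + vec e := by
      rw [succ_nsmul, add_assoc]
    rw [h1]
    have h2 := h (y + n • vec e) e
    have h3 : H (y + n • vec e + vec e) - H y =
      (H (y + n • vec e + vec e) - H (y + n • vec e)) + (H (y + n • vec e) - H y) := by ring
    rw [h3]
    refine (abs_add_le _ _).trans ?_
    push_cast
    linarith

theorem exists_steps (m : ℤ) (l : Fin 2) : ∃ b : Bool,
    (m.natAbs • (vec (l, b) : Site 2)) = Pi.single l m := by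
  rcases le_or_gt 0 m with h | h
  · refine ⟨true, ?_⟩
    unfold vec
    rw [← Pi.single_smul]
    congr 1
    simp
    exact h
  · refine ⟨false, ?_⟩
    unfold vec
    rw [← Pi.single_smul]
    congr 1
    simp
    rw [abs_of_neg h, neg_neg]

theorem chain_two {H : Site 2 → ℝ} {B : ℝ} (hB : 0 ≤ B) (h : ∀ x e, |H (x + vec e) - H x| ≤ B)
    (x y : Site 2) : |H x - H y| ≤ B * 2 * nm (x - y) := by
  obtain ⟨b0, h0⟩ := exists_steps (x 0 - y 0) 0
  obtain ⟨b1, h1⟩ := exists_steps (x 1 - y 1) 1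
  have hx : x = (y + (x 0 - y 0).natAbs • vec (0, b0)) + (x 1 - y 1).natAbs • vec (1, b1) := by
    rw [h0, h1]
    funext i
    fin_cases i <;> simp
  have g0 := chain_line h (x 0 - y 0).natAbs y (0, b0)
  have g1 := chain_line h (x 1 - y 1).natAbs (y + (x 0 - y 0).natAbs • vec (0, b0)) (1, b1)
  rw [← hx] at g1
  have n0 : (((x 0 - y 0).natAbs : ℕ) : ℝ) ≤ nm (x - y) := by
    rw [Nat.cast_natAbs, Int.cast_abs]
    exact le_max_left _ _
  have n1 : (((x 1 - y 1).natAbs : ℕ) : ℝ) ≤ nm (x - y) := by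
    rw [Nat.cast_natAbs, Int.cast_abs]
    exact le_max_right _ _
  have e : H x - H y = (H x - H (y + (x 0 - y 0).natAbs • vec (0, b0))) +
      (H (y + (x 0 - y 0).natAbs • vec (0, b0)) - H y) := by ring
  rw [e]
  refine (abs_add_le _ _).trans ?_
  have m0 := mul_le_mul_of_nonneg_left n0 hB
  have m1 := mul_le_mul_of_nonneg_left n1 hB
  linarith

/-- second differences of the potential -/
theorem sd_eq (φ : Site 2 → ℝ) (l : Fin 2) (x : Site 2) :
    secondDiff φ l x = (φ (x + vec (l, true)) - φ x) + (φ (x + vec (l, false)) - φ x) := by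
  unfold secondDiff
  ring

/-- the second difference of the truncated potential in terms of the increments -/
theorem sd_Phi (κ : ℝ) (φ : Site 2 → ℝ) (j : ℕ) (l : Fin 2) (x : Site 2) :
    secondDiff (Phi κ φ j) l x =
      FF ((φ x - κ * j) + (φ (x + vec (l, true)) - φ x)) +
        FF ((φ x - κ * j) + (φ (x + vec (l, false)) - φ x)) - 2 * FF (φ x - κ * j) := by
  unfold secondDiff Phi
  have e1 : (φ x - κ * j) + (φ (x + vec (l, true)) - φ x) = φ (x + vec (l, true)) - κ * j := by ring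
  have e2 : (φ x - κ * j) + (φ (x + vec (l, false)) - φ x) = φ (x + vec (l, false)) - κ * j := by
    ring
  rw [e1, e2]
  ring

/-- the unit step bound far from the origin -/
theorem step_far (hF : FFP_stmt) {a : ℝ} {φ : Site 2 → ℝ} {κ C0 : ℝ} (hK : Ker a φ κ C0)
    {δ : ℝ} (hδ : 0 ≤ δ) (x : Site 2) (g : Dir 2) (h1 : 1 / (1 + nm x) ≤ δ)
    (h2 : 1 / (1 + nm (x + vec g)) ≤ δ) (j : ℕ) (l : Fin 2) :
    |secondDiff (Phi κ φ j) l (x + vec g) - secondDiff (Phi κ φ j) l x| ≤
      17 * C0 ^ 3 * δ ^ 3 := by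
  have hC0 : 0 ≤ C0 := zero_le_one.trans hK.cone
  have hx : 0 ≤ 1 / (1 + nm x) := by have := nm_nonneg x; positivity
  have hx' : 0 ≤ 1 / (1 + nm (x + vec g)) := by have := nm_nonneg (x + vec g); positivity
  have b1 : ∀ e, |φ (x + vec e) - φ x| ≤ C0 * δ := fun e => by
    refine (hK.d1 x e).trans ?_
    rw [div_eq_mul_one_div]
    exact mul_le_mul_of_nonneg_left h1 hC0
  have b1' : ∀ e, |φ (x + vec g + vec e) - φ (x + vec g)| ≤ C0 * δ := fun e => by
    refine (hK.d1 (x + vec g) e).trans ?_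
    rw [div_eq_mul_one_div]
    exact mul_le_mul_of_nonneg_left h2 hC0
  have b2 : ∀ e f, |φ (x + vec e + vec f) - φ (x + vec e) - φ (x + vec f) + φ x| ≤ C0 * δ ^ 2 :=
    fun e f => by
      refine (hK.d2 x e f).trans ?_
      have : C0 / (1 + nm x) ^ 2 = C0 * (1 / (1 + nm x)) ^ 2 := by
        rw [div_pow, one_pow, mul_one_div]
      rw [this]
      exact mul_le_mul_of_nonneg_left (pow_le_pow_left₀ hx h1 2) hC0
  have b3 : ∀ e f g, |φ (x + vec e + vec f + vec g) - φ (x + vec e + vec f) -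
    φ (x + vec e + vec g) - φ (x + vec f + vec g) + φ (x + vec e) + φ (x + vec f) +
    φ (x + vec g) - φ x| ≤ C0 * δ ^ 3 :=
    fun e f g => by
      refine (hK.d3 x e f g).trans ?_
      have : C0 / (1 + nm x) ^ 3 = C0 * (1 / (1 + nm x)) ^ 3 := by
        rw [div_pow, one_pow, mul_one_div]
      rw [this]
      exact mul_le_mul_of_nonneg_left (pow_le_pow_left₀ hx h1 3) hC0
  have hz : ∀ y : Site 2, y + vec (l, true) + vec (l, false) = y := fun y => by
    rw [vec_neg, add_neg_cancel_right]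
  rw [sd_Phi, sd_Phi]
  refine taylor_cmp hF hK.cone hδ (b1 _) (b1 _) (b1' _) (b1' _) ?_ ?_ ?_ ?_ ?_
  · have := b1 g
    rwa [show φ (x + vec g) - κ * j - (φ x - κ * j) = φ (x + vec g) - φ x by ring]
  · have := b2 (l, true) (l, false)
    rw [hz, ← abs_neg] at this
    rwa [show φ (x + vec (l, true)) - φ x + (φ (x + vec (l, false)) - φ x) =
      -(φ x - φ (x + vec (l, true)) - φ (x + vec (l, false)) + φ x) by ring]
  · have := b3 (l, true) (l, false) g
    rw [hz, add_right_comm x (vec (l, true)) (vec g), add_right_comm x (vec (l, false)) (vec g),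
      ← abs_neg] at this
    rw [show φ (x + vec g + vec (l, true)) - φ (x + vec g) +
      (φ (x + vec g + vec (l, false)) - φ (x + vec g)) -
      (φ (x + vec (l, true)) - φ x + (φ (x + vec (l, false)) - φ x)) =
      -(φ (x + vec g) - φ x - φ (x + vec g + vec (l, true)) - φ (x + vec g + vec (l, false)) +
        φ (x + vec (l, true)) + φ (x + vec (l, false)) + φ (x + vec g) - φ x) by ring]
    exact this
  · have := b2 g (l, true)
    rwa [show φ (x + vec g + vec (l, true)) - φ (x + vec g) - (φ (x + vec (l, true)) - φ x) =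
      φ (x + vec g + vec (l, true)) - φ (x + vec g) - φ (x + vec (l, true)) + φ x by ring]
  · have := b2 g (l, false)
    rwa [show φ (x + vec g + vec (l, false)) - φ (x + vec g) - (φ (x + vec (l, false)) - φ x) =
      φ (x + vec g + vec (l, false)) - φ (x + vec g) - φ (x + vec (l, false)) + φ x by ring]

/-- where the potential is small the truncated potential is constant -/
theorem sd_zero (hF : FFP_stmt) {κ : ℝ} {φ : Site 2 → ℝ} {j : ℕ} {x : Site 2}
    (h0 : φ x ≤ κ * j) (h1 : ∀ e, φ (x + vec e) ≤ κ * j) (l : Fin 2) :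
    secondDiff (Phi κ φ j) l x = 0 := by
  obtain ⟨-, -, -, F, -⟩ := hF
  unfold secondDiff Phi
  have e1 := h1 (l, true)
  have e2 := h1 (l, false)
  rw [F (φ (x + vec (l, true)) - κ * j) (by linarith), F (φ (x + vec (l, false)) - κ * j)
    (by linarith), F (φ x - κ * j) (by linarith)]
  ring

/-- points where the potential is large are far away -/
theorem far_of_large {a : ℝ} {φ : Site 2 → ℝ} {κ C0 : ℝ} (hK : Ker a φ κ C0) {k : ℕ}
    {y : Site 2} (hy : κ * k < φ y) : (2 : ℝ) ^ (-(C0 / κ)) * 2 ^ k < 1 + nm y := by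
  have h1 := (abs_le.1 (hK.log y)).2
  have hn : 0 < 1 + nm y := by have := nm_nonneg y; linarith
  have h2 : κ * (k - C0 / κ) < κ * Real.logb 2 (1 + nm y) := by
    have : κ * (k - C0 / κ) = κ * k - C0 := by
      rw [mul_sub, mul_div_cancel₀ _ hK.kpos.ne']
    rw [this]
    linarith
  have h3 : (k : ℝ) - C0 / κ < Real.logb 2 (1 + nm y) := lt_of_mul_lt_mul_left h2 hK.kpos.le
  rw [Real.lt_logb_iff_rpow_lt (by norm_num) hn] at h3
  rw [← Real.rpow_natCast 2 k, ← Real.rpow_add (by norm_num)]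
  rwa [show -(C0 / κ) + (k : ℝ) = k - C0 / κ by ring]

/-- **SH.** -/
theorem SH (hF : FFP_stmt) : SH_stmt := by
  intro a φ κ C0 hK
  refine ⟨0, fun b _ => ?_⟩
  have hC0 : 0 ≤ C0 := zero_le_one.trans hK.cone
  set c0 : ℝ := (2 : ℝ) ^ (-(C0 / κ)) with hc0
  have hc0p : 0 < c0 := Real.rpow_pos_of_pos (by norm_num) _
  -- `δ = 4 / (c0 2^k)`
  refine ⟨(17 * C0 ^ 3 * (4 / c0) ^ 3 * 2) * 2, 0, fun k _ x y => ?_⟩
  have hk0 : (0 : ℝ) < 2 ^ k := by positivity
  have h8 : ((2 : ℝ) ^ k) ^ 3 = 8 ^ k := by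
    rw [← pow_mul, mul_comm, pow_mul]
    norm_num
  have hstep : ∀ (x : Site 2) (g : Dir 2),
      |hk (Phi κ φ) k (x + vec g) - hk (Phi κ φ) k x| ≤
        17 * C0 ^ 3 * (4 / c0) ^ 3 * 2 / 8 ^ k := by
    intro x g
    by_cases hsmall : φ x ≤ κ * k ∧ (∀ e, φ (x + vec e) ≤ κ * k) ∧
      φ (x + vec g) ≤ κ * k ∧ ∀ e, φ (x + vec g + vec e) ≤ κ * k
    · obtain ⟨s1, s2, s3, s4⟩ := hsmall
      have hle : κ * (k : ℝ) ≤ κ * ((k + 1 : ℕ) : ℝ) := by
        have := hK.kpos
        push_cast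
        nlinarith
      have z1 : ∀ l, secondDiff (Phi κ φ k) l x = 0 := sd_zero hF s1 s2
      have z2 : ∀ l, secondDiff (Phi κ φ k) l (x + vec g) = 0 := sd_zero hF s3 s4
      have z3 : ∀ l, secondDiff (Phi κ φ (k + 1)) l x = 0 :=
        sd_zero hF (s1.trans hle) (fun e => (s2 e).trans hle)
      have z4 : ∀ l, secondDiff (Phi κ φ (k + 1)) l (x + vec g) = 0 :=
        sd_zero hF (s3.trans hle) (fun e => (s4 e).trans hle)
      unfold hk Df
      rw [z1, z1, z2, z2, z3, z3, z4, z4]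
      simp
      positivity
    · -- a point at distance at most two where the potential is large
      have hfar : c0 * 2 ^ k < 3 + nm x := by
        have h1 : ∃ y, κ * k < φ y ∧ nm y ≤ nm x + 2 := by
          by_contra hcon
          push Not at hcon
          refine hsmall ⟨?_, fun e => ?_, ?_, fun e => ?_⟩
          · by_contra h
            have := hcon x (not_le.1 h)
            linarith
          · by_contra h
            have := hcon _ (not_le.1 h)
            linarith [nm_add_vec_le x e]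
          · by_contra h
            have := hcon _ (not_le.1 h)
            linarith [nm_add_vec_le x g]
          · by_contra h
            have := hcon _ (not_le.1 h)
            linarith [nm_add_vec_le x g, nm_add_vec_le (x + vec g) e]
        obtain ⟨y, hy1, hy2⟩ := h1
        have := far_of_large hK hy1
        linarith
      have hx0 := nm_nonneg x
      have hx1 := nm_nonneg (x + vec g)
      have hx2 := nm_le_add_vec x g
      have d1 : 1 / (1 + nm x) ≤ 4 / c0 / 2 ^ k := by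
        rw [div_div, div_le_div_iff₀ (by linarith) (by positivity)]
        linarith
      have d2 : 1 / (1 + nm (x + vec g)) ≤ 4 / c0 / 2 ^ k := by
        rw [div_div, div_le_div_iff₀ (by linarith) (by positivity)]
        linarith
      have hδ : 0 ≤ 4 / c0 / 2 ^ k := by positivity
      have q := fun (j : ℕ) (l : Fin 2) => step_far hF hK hδ x g d1 d2 j l
      have hpow : 17 * C0 ^ 3 * (4 / c0 / 2 ^ k) ^ 3 = 17 * C0 ^ 3 * (4 / c0) ^ 3 / 8 ^ k := by
        rw [div_pow (4 / c0) (2 ^ k) 3, h8]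
        ring
      rw [hpow] at q
      have q1 := abs_le.1 (q k 0)
      have q2 := abs_le.1 (q k 1)
      have q3 := abs_le.1 (q (k + 1) 0)
      have q4 := abs_le.1 (q (k + 1) 1)
      have e8 : 17 * C0 ^ 3 * (4 / c0) ^ 3 * 2 / 8 ^ k = 2 * (17 * C0 ^ 3 * (4 / c0) ^ 3 / 8 ^ k) := by
        ring
      unfold hk Df
      rw [e8, abs_le]
      constructor <;> linarith [q1.1, q1.2, q2.1, q2.2, q3.1, q3.2, q4.1, q4.2]
  have hB : 0 ≤ 17 * C0 ^ 3 * (4 / c0) ^ 3 * 2 / 8 ^ k := by positivity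
  refine (chain_two hB hstep x y).trans (le_of_eq ?_)
  ring

end Pool.Agent.Helper5.EXC
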