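import Pool.Agent.Helper99.EXC.GoalsD

/-!
# Packet SUM: lower bound for the expected number of visits to the origin
-/

open Finset

namespace Pool.Agent.Helper5.EXC

open Pool.Agent.Helper99.ERW Pool.Agent.Helper99.EXC

theorem Bx_mono (b : ℕ) {j k : ℕ} (h : j ≤ k) : Bx b j ⊆ Bx b k := by
  intro x hx
  unfold Bx at *
  rw [mem_box] at *
  intro l
  refine (hx l).trans ?_
  have h1 : b * 2 ^ j ≤ b * 2 ^ k := Nat.mul_le_mul_left b (Nat.pow_le_pow_right (by norm_num) h)
  exact_mod_cast h1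

theorem La_sub (a : ℝ) (f g : Site 2 → ℝ) (x : Site 2) :
    La a (fun x => f x - g x) x = La a f x - La a g x := by
  unfold La secondDiff
  ring

theorem Df_sub (f g : Site 2 → ℝ) (x : Site 2) :
    Df (fun x => f x - g x) x = Df f x - Df g x := by
  unfold Df secondDiff
  ring

/-- **SUM.** -/
theorem SUM (hLTM : LTM_stmt) : SUM_stmt := by
  intro a p V Tl Si φ Φ κ C b k1 hC hS s hs N s0 hs0
  obtain ⟨L1, L2, -⟩ := hLTM a p V Tl Si hC (Bx b (s + 1)) N s0
  have hC1 : 1 ≤ C := hS.cone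
  have hV : ∀ z, 0 ≤ V z := fun z => by
    have := hC.tv z 0
    simpa [Vm] using this
  -- the telescoping of `Df`
  have htel : ∀ x, Df φ x - Df (Φ s) x =
      (Df φ x - Df (Φ k1) x) + ∑ k ∈ Finset.Ico k1 s, hk Φ k x := by
    intro x
    have h1 : ∑ k ∈ Finset.Ico k1 s, hk Φ k x = Df (Φ k1) x - Df (Φ s) x := by
      have h2 := Finset.sum_Ico_sub (fun k => Df (Φ k) x) hs
      have h3 : ∑ k ∈ Finset.Ico k1 s, hk Φ k x =
          -∑ k ∈ Finset.Ico k1 s, (Df (Φ (k + 1)) x - Df (Φ k) x) := by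
        rw [← Finset.sum_neg_distrib]
        refine Finset.sum_congr rfl fun k _ => ?_
        unfold hk
        ring
      rw [h3, h2]
      ring
    rw [h1]
    ring
  -- the identity
  have hstep : ∀ t : St, t.1 ∈ Bx b (s + 1) → stp p (fun t => φ t.1 - Φ s t.1) t =
      (φ t.1 - Φ s t.1) + (((if t.1 = 0 then 1 else 0) - La a (Φ s) t.1) +
        ((Df φ t.1 - Df (Φ k1) t.1) * dS a p t +
          ∑ k ∈ Finset.Ico k1 s, hk Φ k t.1 * dS a p t)) := by
    intro t _
    rw [stp_pos p a (fun x => φ x - Φ s x) t, La_sub, Df_sub, htel, hS.lap, ← Finset.sum_mul]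
    ring
  have hid := tele p (Bx b (s + 1)) N hstep s0
  rw [Rw_add p (Bx b (s + 1)) N (fun t => (if t.1 = 0 then 1 else 0) - La a (Φ s) t.1),
    Rw_sub p (Bx b (s + 1)) N (fun t => if t.1 = 0 then 1 else 0),
    Rw_add p (Bx b (s + 1)) N (fun t => (Df φ t.1 - Df (Φ k1) t.1) * dS a p t),
    Rw_sum p (Bx b (s + 1)) N (Finset.Ico k1 s)] at hid
  -- the terms
  have t1 : 0 ≤ Rw p (Bx b (s + 1)) N (fun t => La a (Φ s) t.1) s0 :=
    Rw_nonneg hC.p0 hC.p1 _ N (fun t _ => hS.mu0 s hs t.1) s0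
  have t2 : κ * s - φ s0.1 ≤ -(φ s0.1 - Φ s s0.1) := by
    have := hS.low s s0.1
    linarith
  have t3 : -(κ * s + 2 * C) * Ex p (Bx b (s + 1)) N (one (Bx b (s + 1))) s0 ≤
      Ex p (Bx b (s + 1)) N (fun t => φ t.1 - Φ s t.1) s0 := by
    have h1 := Ex_mono hC.p0 hC.p1 (Bx b (s + 1)) N
      (f := fun t => -(κ * s + 2 * C) * one (Bx b (s + 1)) t) (g := fun t => φ t.1 - Φ s t.1)
      (fun t => by
        by_cases ht : t.1 ∈ Bx b (s + 1)
        · have h2 := hS.plow t.1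
          have h3 := hS.up s s hs le_rfl t.1 (Bx_mono b (by omega) ht)
          have h4 : one (Bx b (s + 1)) t = 1 := if_pos ht
          rw [h4]
          linarith
        · have h2 : t.1 ∉ Bx b s := fun h => ht (Bx_mono b (by omega) h)
          have h3 := hS.out s hs t.1 h2
          have h4 : one (Bx b (s + 1)) t = 0 := if_neg ht
          rw [h4, h3]
          simp) s0
    rw [Ex_smul] at h1
    exact h1
  have t4 : |Rw p (Bx b (s + 1)) N (fun t => (Df φ t.1 - Df (Φ k1) t.1) * dS a p t) s0| ≤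
      2 * C * ∑ z ∈ Bx b k1, V z := by
    refine (Rw_abs hC.p0 hC.p1 _ N _ s0).trans ?_
    simp only [abs_mul]
    refine (L2 (fun x => Df φ x - Df (Φ k1) x)).trans ?_
    have hsub : Bx b k1 ⊆ Bx b (s + 1) := Bx_mono b (by omega)
    rw [← Finset.sum_subset hsub (f := fun z => |Df φ z - Df (Φ k1) z| * V z) (fun z _ hz => by
      rw [hS.dout k1 le_rfl z hz, sub_self, abs_zero, zero_mul]), Finset.mul_sum]
    refine Finset.sum_le_sum fun z _ => mul_le_mul_of_nonneg_right ?_ (hV z)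
    have h1 : |Df φ z| ≤ C := by
      refine (hS.hbd z).trans (div_le_self (by linarith) ?_)
      have : 0 ≤ nm z := (abs_nonneg _).trans (le_max_left _ _)
      nlinarith
    have h2 : |Df (Φ k1) z| ≤ C := by
      refine (hS.dphi1 k1 le_rfl z).trans (div_le_self (by linarith) ?_)
      exact one_le_pow₀ (by norm_num)
    have h3 := abs_sub (Df φ z) (Df (Φ k1) z)
    linarith
  have t5 : ∀ k ∈ Finset.Ico k1 s,
      Rw p (Bx b (s + 1)) N (fun t => hk Φ k t.1 * dS a p t) s0 =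
        Ex p (Bx b (s + 1)) N (fun t => cL a p Φ b k t.2) s0 - cL a p Φ b k s0.2 := by
    intro k hk'
    rw [Finset.mem_Ico] at hk'
    have hsub : Bx b k ⊆ Bx b (s + 1) := Bx_mono b (by omega)
    have h1 : ∀ L : Site 2 → ℕ, cL a p Φ b k L =
        ∑ z ∈ Bx b (s + 1), hk Φ k z * Sm a p z (L z) := by
      intro L
      unfold cL
      exact Finset.sum_subset hsub (fun z _ hz => by rw [hS.hS k hk'.1 z hz, zero_mul])
    have h2 := L1 (hk Φ k)
    simp only [h1]
    linarith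
  have t6 : ∑ k ∈ Finset.Ico k1 s, Rw p (Bx b (s + 1)) N (fun t => hk Φ k t.1 * dS a p t) s0 ≤
      ∑ k ∈ Finset.Ico k1 s, |Ex p (Bx b (s + 1)) N (fun s => cL a p Φ b k s.2) s0 -
        cL a p Φ b k s0.2| :=
    Finset.sum_le_sum fun k hk' => (t5 k hk').le.trans (le_abs_self _)
  have t4' := le_abs_self (Rw p (Bx b (s + 1)) N (fun t => (Df φ t.1 - Df (Φ k1) t.1) * dS a p t) s0)
  linarith

end Pool.Agent.Helper5.EXC
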